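import Mathlib

/-!
The trace of the Frobenius of the polynomial ring in one variable over a perfect ring.
-/

set_option autoImplicit false

namespace Q37.Fix

open Polynomial

universe u

/-- `p⁻¹`-linear maps of a commutative ring, the elements of `Hom_R(F_*R, R)`. -/
structure IsPInv (p : ℕ) {R : Type u} [CommRing R] (φ : R → R) : Prop where
  add : ∀ a b, φ (a + b) = φ a + φ b
  smul : ∀ r a, φ (r ^ p * a) = r * φ a

section

variable {k : Type u} [Field k] (p : ℕ) [ExpChar k p] [PerfectRing k p]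

/-- The trace of Frobenius `k[X] → k[X]`: coefficient `m` is the `p`-th root of the coefficient of
`X ^ (p m + p - 1)`. -/
noncomputable def Tr (h : k[X]) : k[X] :=
  ∑ m ∈ Finset.range (h.natDegree + 1),
    monomial m ((frobeniusEquiv k p).symm (h.coeff (p * m + (p - 1))))

theorem coeff_Tr (hp : 1 ≤ p) (h : k[X]) (m : ℕ) :
    (Tr p h).coeff m = (frobeniusEquiv k p).symm (h.coeff (p * m + (p - 1))) := by
  unfold Tr
  rw [finsetSum_coeff]
  simp only [coeff_monomial]
  rw [Finset.sum_ite_eq' (Finset.range (h.natDegree + 1)) m]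
  split_ifs with hm
  · rfl
  · rw [Finset.mem_range, not_lt] at hm
    rw [coeff_eq_zero_of_natDegree_lt, map_zero]
    have : m ≤ p * m := Nat.le_mul_of_pos_left m hp
    omega

theorem Tr_add (hp : 1 ≤ p) (g h : k[X]) : Tr p (g + h) = Tr p g + Tr p h := by
  ext m
  rw [coeff_add, coeff_Tr p hp, coeff_Tr p hp, coeff_Tr p hp, coeff_add, map_add]

theorem Tr_zero (hp : 1 ≤ p) : Tr p (0 : k[X]) = 0 := by
  ext m
  rw [coeff_Tr p hp, coeff_zero, map_zero, coeff_zero]

theorem Tr_sum (hp : 1 ≤ p) {ι : Type*} (s : Finset ι) (g : ι → k[X]) :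
    Tr p (∑ i ∈ s, g i) = ∑ i ∈ s, Tr p (g i) := by
  classical
  induction s using Finset.induction_on with
  | empty => simp [Tr_zero p hp]
  | insert a s ha ih => rw [Finset.sum_insert ha, Finset.sum_insert ha, Tr_add p hp, ih]

theorem Tr_monomial_mul (hp : 1 ≤ p) (c : k) (i : ℕ) (h : k[X]) :
    Tr p ((C c * X ^ i) ^ p * h) = (C c * X ^ i) * Tr p h := by
  ext m
  rw [coeff_Tr p hp, mul_pow, ← C_pow, ← pow_mul, mul_assoc, mul_assoc, coeff_C_mul, coeff_C_mul,
    map_mul, coeff_X_pow_mul', coeff_X_pow_mul']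
  have h1 : (frobeniusEquiv k p).symm (c ^ p) = c := by
    rw [RingEquiv.symm_apply_eq]
    rfl
  rw [h1]
  by_cases him : i ≤ m
  · rw [if_pos him, if_pos (by nlinarith), coeff_Tr p hp]
    congr 3
    obtain ⟨j, rfl⟩ := Nat.exists_eq_add_of_le him
    rw [Nat.add_sub_cancel_left]
    have : p * (i + j) = i * p + p * j := by ring
    omega
  · rw [if_neg him, if_neg, map_zero]
    push Not at him ⊢
    have : p * (m + 1) ≤ i * p := by nlinarith
    have h2 : p * (m + 1) = p * m + p := by ring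
    omega

theorem Tr_pow_mul (hp : 1 ≤ p) (g h : k[X]) : Tr p (g ^ p * h) = g * Tr p h := by
  induction g using Polynomial.induction_on' with
  | add a b ha hb =>
    rw [add_pow_expChar, add_mul, Tr_add p hp, ha, hb, add_mul]
  | monomial n a =>
    rw [← C_mul_X_pow_eq_monomial]
    exact Tr_monomial_mul p hp a n h

theorem Tr_X_pow_self (hp : 1 ≤ p) : Tr p (X ^ (p - 1) : k[X]) = 1 := by
  ext m
  rw [coeff_Tr p hp, coeff_X_pow, coeff_one]
  by_cases hm : m = 0
  · subst hm
    simp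
  · rw [if_neg, if_neg hm, map_zero]
    have : 1 ≤ m := Nat.one_le_iff_ne_zero.2 hm
    have : 1 ≤ p * m := Nat.mul_pos hp this
    omega

theorem Tr_X_pow_ne (hp : 1 ≤ p) {j : ℕ} (hj : j < 2 * p - 1) (hj2 : j ≠ p - 1) :
    Tr p (X ^ j : k[X]) = 0 := by
  ext m
  rw [coeff_Tr p hp, coeff_X_pow, coeff_zero, if_neg, map_zero]
  rcases Nat.eq_zero_or_pos m with hm | hm
  · subst hm
    omega
  · have : p ≤ p * m := Nat.le_mul_of_pos_right p hm
    omega

/-- Every `p⁻¹`-linear map of `k[X]` is a multiple of the trace. -/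
theorem exists_Tr (hp : 1 ≤ p) (ψ : k[X] → k[X]) (hψ : IsPInv p ψ) :
    ∃ c : k[X], ∀ h, ψ h = Tr p (c * h) := by
  refine ⟨∑ i ∈ Finset.range p, ψ (X ^ i) ^ p * X ^ (p - 1 - i), ?_⟩
  have key : ∀ r, r < p →
      Tr p ((∑ i ∈ Finset.range p, ψ (X ^ i) ^ p * X ^ (p - 1 - i)) * X ^ r) = ψ (X ^ r) := by
    intro r hr
    rw [Finset.sum_mul, Tr_sum p hp, Finset.sum_eq_single r]
    · rw [mul_assoc, Tr_pow_mul p hp, ← pow_add]
      rw [show p - 1 - r + r = p - 1 by omega, Tr_X_pow_self p hp, mul_one]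
    · intro i hi hir
      rw [Finset.mem_range] at hi
      rw [mul_assoc, Tr_pow_mul p hp, ← pow_add, Tr_X_pow_ne p hp (by omega) (by omega), mul_zero]
    · intro h
      exact absurd (Finset.mem_range.2 hr) h
  intro h
  have h0 : ψ 0 = 0 := by
    have := hψ.add 0 0
    simpa using this
  induction h using Polynomial.induction_on' with
  | add a b ha hb => rw [hψ.add, mul_add, Tr_add p hp, ha, hb]
  | monomial n a =>
    obtain ⟨b, rfl⟩ : ∃ b : k, b ^ p = a := ⟨(frobeniusEquiv k p).symm a, by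
      have := (frobeniusEquiv k p).apply_symm_apply a
      exact this⟩
    have e : (monomial n (b ^ p) : k[X]) = (C b * X ^ (n / p)) ^ p * X ^ (n % p) := by
      rw [mul_pow, ← C_pow, ← pow_mul, mul_assoc, ← pow_add, mul_comm (n / p) p, Nat.div_add_mod,
        C_mul_X_pow_eq_monomial]
    rw [e, hψ.smul, mul_left_comm, Tr_pow_mul p hp, key _ (Nat.mod_lt _ hp)]

end

end Q37.Fix
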