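import Pool.Agent.Q37.Fix.Ring

/-!
The generator of `Hom_R(F_*R, R)` for three lines through a point.
-/

set_option autoImplicit false

namespace Q37.Fix

open Polynomial

universe u v

section dual

variable {k : Type u} [Field k]

/-- The pairing `(r, s) ↦ co 2 (r s)` is nondegenerate. -/
theorem ext_co {w w' : Lines k} (h : ∀ r : Lines k, co k 2 (r * w) = co k 2 (r * w')) : w = w' := by
  have h2 : co k 2 w = co k 2 w' := by simpa using h 1
  have h1 : co k 1 w = co k 1 w' := by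
    have := h (yy k)
    rwa [(co_mul w).2.2, (co_mul w').2.2] at this
  have h0 : co k 0 w = co k 0 w' := by
    have := h (yy k * yy k)
    rw [mul_assoc, mul_assoc, (co_mul _).2.2, (co_mul _).2.2, (co_mul w).2.1, (co_mul w').2.1,
      h2] at this
    exact add_right_cancel this
  rw [← el_co w, ← el_co w', h0, h1, h2]

/-- Every functional is a multiple of `co 2`. -/
theorem exists_co (g : Lines k →ₗ[k[X]] k[X]) : ∃ c : Lines k, ∀ s, g s = co k 2 (c * s) := by
  refine ⟨el k (g (yy k ^ 2) - X ^ 2 * g 1) (g (yy k)) (g 1), fun s => ?_⟩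
  have hs := el_co s
  generalize co k 0 s = a0 at *
  generalize co k 1 s = a1 at *
  generalize co k 2 s = a2 at *
  subst hs
  have e1 : el k a0 a1 a2 = a0 • (1 : Lines k) + a1 • yy k + a2 • yy k ^ 2 := by
    simp only [smul_eq, mul_one]
    rfl
  have e2 : el k (g (yy k ^ 2) - X ^ 2 * g 1) (g (yy k)) (g 1) * el k a0 a1 a2 =
      ofA k a0 * el k (g (yy k ^ 2) - X ^ 2 * g 1) (g (yy k)) (g 1) +
      ofA k a1 * (yy k * el k (g (yy k ^ 2) - X ^ 2 * g 1) (g (yy k)) (g 1)) +
      ofA k a2 * (yy k * (yy k * el k (g (yy k ^ 2) - X ^ 2 * g 1) (g (yy k)) (g 1))) := by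
    conv_lhs => rw [e1]
    simp only [smul_eq]
    ring
  rw [e2]
  simp only [yy_mul_el, ofA_mul_el, el_add, co_el_two]
  rw [e1, map_add, map_add, map_smul, map_smul, map_smul]
  simp only [smul_eq_mul]
  ring

end dual

variable {k : Type u} [Field k] (p : ℕ) [ExpChar k p] [PerfectRing k p]

/-- The generator. -/
noncomputable def Phi (s : Lines k) : Lines k :=
  el k (Tr p (X ^ (2 * p - 2) * co k 0 s)) (Tr p (X ^ (p - 1) * co k 1 s)) (Tr p (co k 2 s))

theorem Phi_add (hp : 1 ≤ p) (a b : Lines k) : Phi p (a + b) = Phi p a + Phi p b := by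
  unfold Phi
  simp only [map_add, mul_add, Tr_add p hp, el_add]

instance instExpCharLines : ExpChar (Lines k) p := by
  have : Nontrivial (Lines k) := by
    apply AdjoinRoot.nontrivial
    rw [degree_eq_natDegree (cub_monic k).ne_zero, cub_natDegree]
    norm_num
  exact expChar_of_injective_algebraMap (algebraMap k (Lines k)).injective p

theorem Phi_of (hp : 1 ≤ p) (a : k[X]) (s : Lines k) :
    Phi p (ofA k a ^ p * s) = ofA k a * Phi p s := by
  have e : ofA k a ^ p = ofA k (a ^ p) := by simp [ofA]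
  unfold Phi
  rw [e, co_of_mul, co_of_mul, co_of_mul, ofA_mul_el, mul_left_comm (X ^ (2 * p - 2)) (a ^ p),
    mul_left_comm (X ^ (p - 1)) (a ^ p), Tr_pow_mul p hp, Tr_pow_mul p hp, Tr_pow_mul p hp]

theorem Phi_yy (hp : Odd p) (s : Lines k) : Phi p (yy k ^ p * s) = yy k * Phi p s := by
  obtain ⟨m, hm⟩ := hp
  have hp1 : 1 ≤ p := by omega
  have e : yy k ^ p = ofA k (X ^ (2 * m)) * yy k := by
    rw [hm]
    exact yy_odd m
  unfold Phi
  rw [e, mul_assoc, co_of_mul, co_of_mul, co_of_mul, (co_mul s).1, (co_mul s).2.1, (co_mul s).2.2,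
    yy_mul_el]
  have h2 : p - 1 = 2 * m := by omega
  have h3 : 2 * p - 2 = 4 * m := by omega
  congr 1
  · rw [mul_zero, mul_zero, Tr_zero p hp1]
  · rw [mul_add, mul_add, Tr_add p hp1]
    congr 1
    · congr 1
      rw [h2, h3]
      ring
    · rw [← Tr_pow_mul p hp1]
      congr 1
      rw [h2, ← pow_mul]
      have : 2 * p = 2 * m + 2 * m + 2 := by omega
      rw [this]
      ring
  · congr 1
    rw [h2]

theorem Phi_smul (hp : Odd p) (r s : Lines k) : Phi p (r ^ p * s) = r * Phi p s := by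
  have hp1 : 1 ≤ p := hp.pos
  have hmul : ∀ a b : Lines k, (∀ s, Phi p (a ^ p * s) = a * Phi p s) →
      (∀ s, Phi p (b ^ p * s) = b * Phi p s) → ∀ s, Phi p ((a * b) ^ p * s) = a * b * Phi p s := by
    intro a b ha hb s
    rw [mul_pow, mul_assoc, ha, hb, mul_assoc]
  have hadd : ∀ a b : Lines k, (∀ s, Phi p (a ^ p * s) = a * Phi p s) →
      (∀ s, Phi p (b ^ p * s) = b * Phi p s) → ∀ s, Phi p ((a + b) ^ p * s) = (a + b) * Phi p s := by
    intro a b ha hb s
    rw [add_pow_expChar, add_mul, Phi_add p hp1, ha, hb, add_mul]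
  have hof : ∀ a : k[X], ∀ s, Phi p (ofA k a ^ p * s) = ofA k a * Phi p s := fun a s =>
    Phi_of p hp1 a s
  have hy : ∀ s, Phi p (yy k ^ p * s) = yy k * Phi p s := fun s => Phi_yy p hp s
  have hr := el_co r
  rw [← hr]
  unfold el
  refine hadd _ _ (hadd _ _ (hof _) (hmul _ _ (hof _) hy)) ?_ s
  rw [pow_two]
  exact hmul _ _ (hof _) (hmul _ _ hy hy)

theorem Phi_isPInv (hp : Odd p) : IsPInv p (Phi (k := k) p) :=
  ⟨Phi_add p hp.pos, Phi_smul p hp⟩

/-- `Phi` generates `Hom_R(F_*R, R)`. -/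
theorem Phi_gen (hp : Odd p) (φ : Lines k → Lines k) (hφ : IsPInv p φ) :
    ∃ c : Lines k, ∀ s, φ s = Phi p (c * s) := by
  have hp1 : 1 ≤ p := hp.pos
  have key : ∀ j : ℕ, ∃ c : k[X], ∀ a : k[X], co k 2 (φ (ofA k a * yy k ^ j)) = Tr p (c * a) := by
    intro j
    refine exists_Tr p hp1 (fun a => co k 2 (φ (ofA k a * yy k ^ j))) ⟨?_, ?_⟩
    · intro a b
      simp only [ofA, map_add, add_mul, hφ.add]
    · intro a b
      have e : ofA k (a ^ p * b) * yy k ^ j = ofA k a ^ p * (ofA k b * yy k ^ j) := by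
        simp only [ofA, map_mul, map_pow]
        ring
      rw [e, hφ.smul, co_of_mul]
  choose g hg using key
  obtain ⟨c, hc⟩ : ∃ c : Lines k, ∀ s, g 0 * co k 0 s + g 1 * co k 1 s + g 2 * co k 2 s =
      co k 2 (c * s) := by
    obtain ⟨c, hc⟩ := exists_co (g 0 • co k 0 + g 1 • co k 1 + g 2 • co k 2)
    refine ⟨c, fun s => ?_⟩
    rw [← hc]
    simp [smul_eq_mul]
  have h1 : ∀ s, co k 2 (φ s) = Tr p (co k 2 (c * s)) := by
    intro s
    rw [← hc]
    have hs := el_co s
    generalize co k 0 s = a0 at *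
    generalize co k 1 s = a1 at *
    generalize co k 2 s = a2 at *
    subst hs
    unfold el
    rw [hφ.add, hφ.add, map_add, map_add]
    have e0 : ofA k a0 = ofA k a0 * yy k ^ 0 := by simp
    have e1 : ofA k a1 * yy k = ofA k a1 * yy k ^ 1 := by simp
    rw [e0, e1, hg 0, hg 1, hg 2, Tr_add p hp1, Tr_add p hp1]
  refine ⟨c, fun s => ext_co fun r => ?_⟩
  rw [← hφ.smul, h1, ← Phi_smul p hp]
  have e : c * (r ^ p * s) = r ^ p * (c * s) := by ring
  rw [e]
  unfold Phi
  rw [co_el_two]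

/-- The value of `Phi` at `x`. -/
theorem Phi_x (hp : 2 ≤ p) : Phi p (ofA k X) = ofA k X := by
  have e : ofA k (X : k[X]) = el k X 0 0 := by
    unfold el
    simp
  rw [e]
  unfold Phi
  rw [co_el_zero, co_el_one, co_el_two, mul_zero, Tr_zero p (by omega)]
  congr 1
  have : (X : k[X]) ^ (2 * p - 2) * X = X ^ p * X ^ (p - 1) := by
    rw [← pow_succ, ← pow_add]
    congr 1
    omega
  rw [this, Tr_pow_mul p (by omega), Tr_X_pow_self p (by omega), mul_one]

/-- The value of `Phi` at `x ^ (p - 1) y ^ 2`. -/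
theorem Phi_ysq (hp : 1 ≤ p) : Phi p (ofA k (X ^ (p - 1)) * yy k ^ 2) = yy k ^ 2 := by
  have e : ofA k ((X : k[X]) ^ (p - 1)) * yy k ^ 2 = el k 0 0 (X ^ (p - 1)) := by
    unfold el
    simp
  rw [e]
  unfold Phi
  rw [co_el_zero, co_el_one, co_el_two, mul_zero, mul_zero, Tr_zero p hp, Tr_X_pow_self p hp]
  unfold el
  simp

end Q37.Fix
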