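import Pool.Agent.Q37.Fix.Gen

/-!
The ideal `(x, y ^ 2)` is fixed and no trace ideal.
-/

set_option autoImplicit false

namespace Q37.Fix

open Polynomial

universe u v

variable {k : Type u} [Field k]

/-- The ideal `(x, y ^ 2)`. -/
noncomputable def II (k : Type u) [Field k] : Ideal (Lines k) :=
  Ideal.span {ofA k X, yy k ^ 2}

theorem mem_II (r : Lines k) : r ∈ II k ↔ X ∣ co k 0 r ∧ X ∣ co k 1 r := by
  constructor
  · intro h
    unfold II at h
    rw [Ideal.mem_span_pair] at h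
    obtain ⟨a, b, rfl⟩ := h
    rw [mul_comm a, mul_comm b, pow_two, mul_assoc]
    simp only [map_add, co_of_mul, (co_mul _).1, (co_mul _).2.1, (co_mul _).2.2, zero_add, add_zero]
    refine ⟨dvd_mul_right _ _, dvd_add (dvd_mul_right _ _) ?_⟩
    exact Dvd.dvd.mul_right (dvd_pow_self _ two_ne_zero) _
  · rintro ⟨⟨a, ha⟩, ⟨b, hb⟩⟩
    rw [← el_co r, ha, hb]
    unfold II el
    rw [Ideal.mem_span_pair]
    refine ⟨ofA k a + ofA k b * yy k, ofA k (co k 2 r), ?_⟩
    simp only [ofA, map_mul]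
    ring

theorem yy_mul_mem {a : Lines k} (ha : a ∈ II k) : ∃ w, yy k * a = ofA k X * w := by
  rw [mem_II] at ha
  obtain ⟨⟨u, hu⟩, ⟨w, hw⟩⟩ := ha
  refine ⟨el k 0 (u + X * co k 2 a) w, ?_⟩
  conv_lhs => rw [← el_co a]
  rw [yy_mul_el, ofA_mul_el, hu, hw, mul_zero]
  congr 1
  ring

/-- The ideal `(x, y ^ 2)` is fixed. -/
theorem fixed (p : ℕ) [ExpChar k p] [PerfectRing k p] (hp : Odd p) (h1 : p ≠ 1)
    (Ψ : Lines k → Lines k) (hΨ : IsPInv p Ψ)
    (hgen : ∀ φ : Lines k → Lines k, IsPInv p φ → ∃ c, ∀ s, φ s = Ψ (c * s)) (b : Lines k) :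
    b ∈ II k ↔ ∃ a ∈ II k, Ψ a = b := by
  constructor
  · intro hb
    unfold II at hb
    rw [Ideal.mem_span_pair] at hb
    obtain ⟨u, w, rfl⟩ := hb
    obtain ⟨c, hc⟩ := hgen (Phi p) (Phi_isPInv p hp)
    have hp1 := hp.pos
    refine ⟨c * (u ^ p * ofA k X + w ^ p * (ofA k (X ^ (p - 1)) * yy k ^ 2)), ?_, ?_⟩
    · apply Ideal.mul_mem_left
      apply Ideal.add_mem
      · exact Ideal.mul_mem_left _ _ (Ideal.subset_span (by simp))
      · exact Ideal.mul_mem_left _ _ (Ideal.mul_mem_left _ _ (Ideal.subset_span (by simp)))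
    · rw [← hc, Phi_add p hp1, Phi_smul p hp, Phi_smul p hp, Phi_x p (by omega), Phi_ysq p hp1]
  · rintro ⟨a, ha, rfl⟩
    obtain ⟨w, hw⟩ := yy_mul_mem ha
    have e : yy k * Ψ a = ofA k X * Ψ w := by
      rw [← hΨ.smul, ← hΨ.smul]
      congr 1
      obtain ⟨m, hm⟩ := hp
      rw [hm, yy_odd, mul_assoc, hw]
      simp only [ofA, map_pow]
      ring
    rw [mem_II]
    constructor
    · have h := (co_mul (Ψ a)).2.1
      rw [e, co_of_mul] at h
      have h2 : X ∣ co k 0 (Ψ a) + X ^ 2 * co k 2 (Ψ a) := ⟨_, h.symm⟩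
      exact (dvd_add_left (Dvd.dvd.mul_right (dvd_pow_self _ two_ne_zero) _)).1 h2
    · have h := (co_mul (Ψ a)).2.2
      rw [e, co_of_mul] at h
      exact ⟨_, h.symm⟩

theorem ofX_inj {a b : Lines k} (h : ofA k X * a = ofA k X * b) : a = b := by
  rw [← el_co a, ← el_co b, ofA_mul_el, ofA_mul_el] at h
  obtain ⟨h0, h1, h2⟩ := el_inj h
  rw [← el_co a, ← el_co b, mul_left_cancel₀ X_ne_zero h0, mul_left_cancel₀ X_ne_zero h1,
    mul_left_cancel₀ X_ne_zero h2]

theorem ofA_inj {c : k[X]} (hc : c ≠ 0) {a b : Lines k} (h : ofA k c * a = ofA k c * b) :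
    a = b := by
  rw [← el_co a, ← el_co b, ofA_mul_el, ofA_mul_el] at h
  obtain ⟨h0, h1, h2⟩ := el_inj h
  rw [← el_co a, ← el_co b, mul_left_cancel₀ hc h0, mul_left_cancel₀ hc h1,
    mul_left_cancel₀ hc h2]

/-- Functionals over `k[x]` come from functionals over the ring. -/
theorem exists_lift {S : Type v} [AddCommGroup S] [Module (Lines k) S] [Module k[X] S]
    [IsScalarTower k[X] (Lines k) S] (g : S →ₗ[k[X]] k[X]) :
    ∃ f : S →ₗ[Lines k] Lines k, ∀ s, co k 1 (f s) = g (yy k • s) := by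
  let F : S → Lines k := fun s => el k (g (yy k ^ 2 • s) - X ^ 2 * g s) (g (yy k • s)) (g s)
  have hof : ∀ (a : k[X]) (s : S), g (ofA k a • s) = a * g s := by
    intro a s
    rw [← smul_eq_mul, ← map_smul]
    congr 1
    rw [← one_smul (Lines k) s, ← smul_assoc, ← smul_assoc, smul_eq, mul_one, smul_eq_mul,
      mul_one]
  have hA : ∀ (a : k[X]) (s : S), F (ofA k a • s) = ofA k a * F s := by
    intro a s
    change el k (g (yy k ^ 2 • ofA k a • s) - X ^ 2 * g (ofA k a • s)) (g (yy k • ofA k a • s))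
        (g (ofA k a • s)) =
      ofA k a * el k (g (yy k ^ 2 • s) - X ^ 2 * g s) (g (yy k • s)) (g s)
    rw [smul_comm (yy k ^ 2) (ofA k a) s, smul_comm (yy k) (ofA k a) s, hof, hof, hof,
      ofA_mul_el]
    congr 1
    ring
  have hY : ∀ (s : S), F (yy k • s) = yy k * F s := by
    intro s
    change el k (g (yy k ^ 2 • yy k • s) - X ^ 2 * g (yy k • s)) (g (yy k • yy k • s))
        (g (yy k • s)) =
      yy k * el k (g (yy k ^ 2 • s) - X ^ 2 * g s) (g (yy k • s)) (g s)
    rw [yy_mul_el, smul_smul, smul_smul, ← pow_succ, ← pow_two]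
    have e : g (yy k ^ (2 + 1) • s) = X ^ 2 * g (yy k • s) := by
      rw [show yy k ^ (2 + 1) = ofA k (X ^ 2) * yy k from yy_cube, mul_smul, hof]
    rw [e]
    congr 1 <;> ring
  have hadd : ∀ (s t : S), F (s + t) = F s + F t := by
    intro s t
    change el k (g (yy k ^ 2 • (s + t)) - X ^ 2 * g (s + t)) (g (yy k • (s + t)))
        (g (s + t)) =
      el k (g (yy k ^ 2 • s) - X ^ 2 * g s) (g (yy k • s)) (g s) +
      el k (g (yy k ^ 2 • t) - X ^ 2 * g t) (g (yy k • t)) (g t)
    rw [el_add]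
    simp only [smul_add, map_add]
    congr 1
    ring
  have hr2 : ∀ r t : Lines k, r * t = ofA k (co k 0 r) * t + ofA k (co k 1 r) * (yy k * t) +
      ofA k (co k 2 r) * (yy k * (yy k * t)) := by
    intro r t
    conv_lhs => rw [← el_co r]
    unfold el
    ring
  have hr : ∀ (r : Lines k) (s : S), r • s = ofA k (co k 0 r) • s +
      ofA k (co k 1 r) • (yy k • s) + ofA k (co k 2 r) • (yy k • (yy k • s)) := by
    intro r s
    have h := hr2 r 1
    rw [mul_one, mul_one, mul_one] at h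
    conv_lhs => rw [h]
    rw [add_smul, add_smul, mul_smul, mul_smul, mul_smul]
  exact ⟨{ toFun := F
           map_add' := hadd
           map_smul' := fun r s => by
            rw [RingHom.id_apply, smul_eq_mul, hr2, hr, hadd, hadd, hA, hA, hA, hY, hY, hY] },
    fun s => co_el_one _ _ _⟩

/-- The ideal `(x, y ^ 2)` is no trace ideal. -/
theorem not_trace (S : Type v) [CommRing S] [Algebra (Lines k) S] [Module.Finite (Lines k) S] :
    ¬ ∀ r : Lines k, r ∈ II k ↔ ∃ f : S →ₗ[Lines k] Lines k, f 1 = r := by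
  intro H
  let _ : Algebra k[X] S := ((algebraMap (Lines k) S).comp (algebraMap k[X] (Lines k))).toAlgebra
  have : IsScalarTower k[X] (Lines k) S := IsScalarTower.of_algebraMap_eq (fun _ => rfl)
  have : Module.Finite k[X] (Lines k) := (cub_monic k).finite_adjoinRoot
  have : Module.Finite k[X] S := Module.Finite.trans (Lines k) S
  -- the element `y` of `S` is divisible by `x` modulo torsion
  have hdiv : ∃ s : S, yy k • (1 : S) - (X : k[X]) • s ∈ Submodule.torsion k[X] S := by
    let M := S ⧸ Submodule.torsion k[X] S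
    have : Module.IsTorsionFree k[X] M := inferInstance
    have : Module.Free k[X] M := inferInstance
    let b := Module.Free.chooseBasis k[X] M
    let m : M := Submodule.Quotient.mk (yy k • (1 : S))
    have hb : ∀ i, X ∣ b.repr m i := by
      intro i
      let g : S →ₗ[k[X]] k[X] := (b.coord i).comp (Submodule.mkQ _)
      obtain ⟨f, hfg⟩ := exists_lift g
      have hf : f 1 ∈ II k := (H (f 1)).2 ⟨f, rfl⟩
      rw [mem_II] at hf
      have h1 := hf.2
      rw [hfg] at h1
      exact h1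
    choose q hq using hb
    let s0 : M := ∑ i, q i • b i
    obtain ⟨s, hs⟩ := Submodule.Quotient.mk_surjective _ s0
    refine ⟨s, ?_⟩
    rw [← Submodule.Quotient.eq]
    have e : (Submodule.Quotient.mk ((X : k[X]) • s) : M) =
        (X : k[X]) • (Submodule.Quotient.mk s : M) := rfl
    rw [e, hs]
    change m = _
    rw [← b.sum_repr m, Finset.smul_sum]
    refine Finset.sum_congr rfl fun i _ => ?_
    rw [hq i, mul_smul]
  obtain ⟨s, hs⟩ := hdiv
  rw [Submodule.mem_torsion_iff] at hs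
  obtain ⟨a, ha⟩ := hs
  have ha0 : (a : k[X]) ≠ 0 := nonZeroDivisors.coe_ne_zero a
  obtain ⟨f, hf⟩ := (H (ofA k X)).1 (Ideal.subset_span (by simp))
  -- in `S`: `a * (y - x s) = 0`
  have hS : algebraMap (Lines k) S (ofA k a) *
      (algebraMap (Lines k) S (yy k) - algebraMap (Lines k) S (ofA k X) * s) = 0 := by
    have h := ha
    rw [Submonoid.smul_def, Algebra.smul_def, Algebra.smul_def, Algebra.smul_def, mul_one] at h
    exact h
  have h2 : ofA k a • (ofA k X ^ 2 • (s ^ 2)) = ofA k a • (yy k ^ 2 • (1 : S)) := by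
    rw [Algebra.smul_def, Algebra.smul_def, Algebra.smul_def, Algebra.smul_def, map_pow, map_pow]
    linear_combination (-(algebraMap (Lines k) S (yy k)) -
      algebraMap (Lines k) S (ofA k X) * s) * hS
  have h3 := congrArg f h2
  simp only [map_smul, smul_eq_mul, hf] at h3
  have h4 := ofA_inj ha0 h3
  have h5 : ofA k X * f (s ^ 2) = yy k ^ 2 := by
    apply ofX_inj
    rw [← mul_assoc, ← pow_two, h4, mul_comm]
  have h6 := congrArg (co k 2) h5
  rw [co_of_mul, yy_sq_eq, co_el_two] at h6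
  exact not_isUnit_X (IsUnit.of_mul_eq_one _ h6)

end Q37.Fix
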