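import Pool.Agent.Q37.Fix.Cartier

/-!
The plane curve `y ^ 3 = x ^ 2 y` as an algebra over `k[x]`.
-/

set_option autoImplicit false

namespace Q37.Fix

open Polynomial

universe u v

variable (k : Type u) [Field k]

/-- The polynomial `y ^ 3 - x ^ 2 y` over `k[x]`. -/
noncomputable def cub : (k[X])[X] := X ^ 3 - C (X ^ 2) * X

/-- The ring `k[x, y] / (y ^ 3 - x ^ 2 y)` of three lines through a point. -/
abbrev Lines : Type u := AdjoinRoot (cub k)

theorem cub_monic : (cub k).Monic := by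
  unfold cub
  monicity!

theorem cub_natDegree : (cub k).natDegree = 3 := by
  unfold cub
  compute_degree!

/-- The coordinates of an element with respect to `1, y, y ^ 2`. -/
noncomputable def co (i : ℕ) : Lines k →ₗ[k[X]] k[X] :=
  (lcoeff (k[X]) i).comp (AdjoinRoot.modByMonicHom (cub_monic k))

/-- The class of `y`. -/
noncomputable abbrev yy : Lines k := AdjoinRoot.root (cub k)

/-- The class of an element of `k[x]`. -/
noncomputable abbrev ofA (a : k[X]) : Lines k := AdjoinRoot.of (cub k) a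

/-- The element with given coordinates. -/
noncomputable def el (a0 a1 a2 : k[X]) : Lines k :=
  ofA k a0 + ofA k a1 * yy k + ofA k a2 * yy k ^ 2

variable {k}

theorem smul_eq (a : k[X]) (r : Lines k) : a • r = ofA k a * r := by
  rw [Algebra.smul_def]
  rfl

theorem el_eq_mk (a0 a1 a2 : k[X]) :
    el k a0 a1 a2 = AdjoinRoot.mk (cub k) (C a0 + C a1 * X + C a2 * X ^ 2) := by
  unfold el
  simp only [map_add, map_mul, map_pow, AdjoinRoot.mk_C, AdjoinRoot.mk_X]

theorem mod_el (a0 a1 a2 : k[X]) :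
    AdjoinRoot.modByMonicHom (cub_monic k) (el k a0 a1 a2) = C a0 + C a1 * X + C a2 * X ^ 2 := by
  rw [el_eq_mk, AdjoinRoot.modByMonicHom_mk, (modByMonic_eq_self_iff (cub_monic k)).2]
  rw [degree_eq_natDegree (cub_monic k).ne_zero, cub_natDegree]
  refine lt_of_le_of_lt (b := ((2 : ℕ) : WithBot ℕ)) ?_ (by norm_num)
  compute_degree!

theorem co_el_zero (a0 a1 a2 : k[X]) : co k 0 (el k a0 a1 a2) = a0 := by
  unfold co
  rw [LinearMap.comp_apply, mod_el]
  simp [lcoeff_apply, coeff_X]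

theorem co_el_one (a0 a1 a2 : k[X]) : co k 1 (el k a0 a1 a2) = a1 := by
  unfold co
  rw [LinearMap.comp_apply, mod_el]
  simp [lcoeff_apply, coeff_X, coeff_C]

theorem co_el_two (a0 a1 a2 : k[X]) : co k 2 (el k a0 a1 a2) = a2 := by
  unfold co
  rw [LinearMap.comp_apply, mod_el]
  simp [lcoeff_apply, coeff_X, coeff_C]

theorem el_co (r : Lines k) : el k (co k 0 r) (co k 1 r) (co k 2 r) = r := by
  have h := AdjoinRoot.mk_leftInverse (cub_monic k) r
  have h2 : (AdjoinRoot.modByMonicHom (cub_monic k) r).natDegree < 3 := by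
    obtain ⟨g, rfl⟩ := AdjoinRoot.mk_surjective r
    rw [AdjoinRoot.modByMonicHom_mk]
    have := natDegree_modByMonic_lt g (cub_monic k) (by
      intro h1
      have := cub_natDegree k
      rw [h1, natDegree_one] at this
      omega)
    rwa [cub_natDegree] at this
  conv_rhs => rw [← h, as_sum_range_C_mul_X_pow' _ h2]
  rw [el_eq_mk]
  simp only [Finset.sum_range_succ, Finset.sum_range_zero, zero_add, pow_zero, mul_one, pow_one]
  rfl

theorem el_inj {a0 a1 a2 b0 b1 b2 : k[X]} (h : el k a0 a1 a2 = el k b0 b1 b2) :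
    a0 = b0 ∧ a1 = b1 ∧ a2 = b2 := by
  refine ⟨?_, ?_, ?_⟩
  · rw [← co_el_zero a0 a1 a2, h, co_el_zero]
  · rw [← co_el_one a0 a1 a2, h, co_el_one]
  · rw [← co_el_two a0 a1 a2, h, co_el_two]

theorem yy_cube : yy k ^ 3 = ofA k (X ^ 2) * yy k := by
  have h : AdjoinRoot.mk (cub k) (cub k) = 0 := AdjoinRoot.mk_self
  have e : cub k = X ^ 3 - C (X ^ 2) * X := rfl
  rw [congrArg (AdjoinRoot.mk (cub k)) e, map_sub, map_mul, map_pow _ X 3, AdjoinRoot.mk_C,
    AdjoinRoot.mk_X] at h
  exact sub_eq_zero.1 h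

theorem yy_mul_el (a0 a1 a2 : k[X]) :
    yy k * el k a0 a1 a2 = el k 0 (a0 + X ^ 2 * a2) a1 := by
  unfold el
  have h := yy_cube (k := k)
  simp only [ofA] at h ⊢
  rw [map_add, map_mul, map_zero]
  linear_combination (AdjoinRoot.of (cub k) a2) * h

theorem ofA_mul_el (a a0 a1 a2 : k[X]) :
    ofA k a * el k a0 a1 a2 = el k (a * a0) (a * a1) (a * a2) := by
  unfold el
  simp only [ofA, map_mul]
  ring

theorem el_add (a0 a1 a2 b0 b1 b2 : k[X]) :
    el k a0 a1 a2 + el k b0 b1 b2 = el k (a0 + b0) (a1 + b1) (a2 + b2) := by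
  unfold el
  simp only [ofA, map_add]
  ring

theorem yy_eq : yy k = el k 0 1 0 := by
  unfold el
  simp

theorem one_eq : (1 : Lines k) = el k 1 0 0 := by
  unfold el
  simp

theorem yy_sq_eq : yy k ^ 2 = el k 0 0 1 := by
  unfold el
  simp

theorem co_mul (r : Lines k) : co k 0 (yy k * r) = 0 ∧
    co k 1 (yy k * r) = co k 0 r + X ^ 2 * co k 2 r ∧ co k 2 (yy k * r) = co k 1 r := by
  have h := el_co r
  generalize co k 0 r = a0 at *
  generalize co k 1 r = a1 at *
  generalize co k 2 r = a2 at *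
  subst h
  rw [yy_mul_el]
  exact ⟨co_el_zero _ _ _, co_el_one _ _ _, co_el_two _ _ _⟩

theorem co_of_mul (i : ℕ) (a : k[X]) (r : Lines k) : co k i (ofA k a * r) = a * co k i r := by
  rw [← smul_eq, map_smul, smul_eq_mul]

theorem yy_even (m : ℕ) : yy k ^ (2 * m + 2) = ofA k (X ^ (2 * m)) * yy k ^ 2 := by
  induction m with
  | zero => simp
  | succ m ih =>
    have h := yy_cube (k := k)
    have e : yy k ^ (2 * (m + 1) + 2) = yy k ^ (2 * m + 2) * yy k ^ 2 := by ring
    rw [e, ih]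
    simp only [ofA, map_pow, map_mul] at h ⊢
    linear_combination (AdjoinRoot.of (cub k) X) ^ (2 * m) * yy k * h

theorem yy_odd (m : ℕ) : yy k ^ (2 * m + 1) = ofA k (X ^ (2 * m)) * yy k := by
  induction m with
  | zero => simp
  | succ m ih =>
    have h := yy_cube (k := k)
    have e : yy k ^ (2 * (m + 1) + 1) = yy k ^ (2 * m + 1) * yy k ^ 2 := by ring
    rw [e, ih]
    simp only [ofA, map_pow, map_mul] at h ⊢
    linear_combination (AdjoinRoot.of (cub k) X) ^ (2 * m) * h

end Q37.Fix
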